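import Mathlib
set_option autoImplicit false

namespace Pool.Agent.Helper501.EPO

/-- The commutator [a,b] = a⁻¹ b⁻¹ a b. -/
def comm {G : Type} [Group G] (a b : G) : G := a⁻¹ * b⁻¹ * a * b

/-- The iterated commutator: [x,_0 g] = x and [x,_(n+1) g] = [[x,_n g], g]. -/
def iterComm {G : Type} [Group G] (x g : G) : ℕ → G
  | 0 => x
  | n + 1 => comm (iterComm x g n) g

/-- g is an Engel element of G: for every x there is n ≥ 1 with [x,_n g] = 1. -/
def IsEngelElement {G : Type} [Group G] (g : G) : Prop :=
  ∀ x : G, ∃ n : ℕ, 1 ≤ n ∧ iterComm x g n = 1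

/-- G is orderable: it has a total order invariant under multiplication on both sides. -/
def Orderable (G : Type) [Group G] : Prop :=
  ∃ L : LinearOrder G, ∀ a b c : G, L.le a b → L.le (c * a) (c * b) ∧ L.le (a * c) (b * c)

/-- G is right orderable: it has a total order with a ≤ b → a c ≤ b c. -/
def RightOrderable (G : Type) [Group G] : Prop :=
  ∃ L : LinearOrder G, ∀ a b c : G, L.le a b → L.le (a * c) (b * c)

end Pool.Agent.Helper501.EPO
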