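import Pool.Agent.Helper501.EPO.Defs
import Pool.Agent.Helper501.EP.Main
set_option autoImplicit false

namespace Pool.Agent.Helper501.EPO

theorem iterComm_eq {G : Type} [Group G] (x g : G) (n : ℕ) :
    iterComm x g n = (EP.cm g)^[n] x := by
  induction n with
  | zero => rfl
  | succ n ih => rw [Function.iterate_succ_apply', ← ih]; rfl

theorem isEngel_iff {G : Type} [Group G] (g : G) : IsEngelElement g ↔ EP.IsEngel g := by
  constructor
  · intro h x
    obtain ⟨n, -, hn⟩ := h x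
    exact ⟨n, by rw [← iterComm_eq]; exact hn⟩
  · intro h x
    obtain ⟨k, hk⟩ := h x
    refine ⟨k + 1, by omega, ?_⟩
    rw [iterComm_eq, Function.iterate_succ_apply', hk]
    simp [EP.cm]

theorem main : (∃ (G : Type) (_ : Group G), Orderable G ∧
      ∃ g h : G, IsEngelElement g ∧ IsEngelElement h ∧ ¬ IsEngelElement (g * h)) ∧
    (∃ (G : Type) (_ : Group G), Orderable G ∧ RightOrderable G ∧
      ¬ ∃ H : Subgroup G, ∀ g : G, g ∈ H ↔ IsEngelElement g) := by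
  obtain ⟨G, iG, L, hL, h2, g1, g2, e1, e2, e12⟩ := EP.main
  refine ⟨⟨G, iG, ⟨L, hL⟩, g1, g2, (isEngel_iff _).2 e1, (isEngel_iff _).2 e2,
    fun h => e12 ((isEngel_iff _).1 h)⟩, ⟨G, iG, ⟨L, hL⟩, ⟨L, fun a b c h => (hL a b c h).2⟩, ?_⟩⟩
  rintro ⟨H, hH⟩
  have m1 : g1 ∈ H := (hH g1).2 ((isEngel_iff _).2 e1)
  have m2 : g2 ∈ H := (hH g2).2 ((isEngel_iff _).2 e2)
  exact e12 ((isEngel_iff _).1 ((hH (g1 * g2)).1 (H.mul_mem m1 m2)))

end Pool.Agent.Helper501.EPO
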